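import Mathlib
import Pool.Agent.Helper47.Chow.OffMiddle
import Pool.Agent.Helper11.Murre.S4

/-!
# The Lefschetz isomorphisms of varieties with algebraic cohomology outside the middle degree
-/

universe u v w

open CategoryTheory AlgebraicGeometry Limits

namespace Pool.Agent.Helper62.VG

open Pool.Agent.Helper10 Pool.Agent.Helper10.SmProjVar Pool.Agent.Helper47.Chow

variable {k : Type u} [Field k] {K : Type v} [Field K] [CharZero K]
  {W : WeilCohomology.{u, v, w} k K} {C : ChowTheory W}

/-- `H^{2i}` and `H^{2j}` are spanned by algebraic classes, `i + j = dim X`: the identity of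
`H^{2i}` factors through `H^{2j}` by algebraic correspondences. -/
theorem lef_even {X : SmProjVar k} {i j : ℕ} (hij : i + j = X.dim) (hi : SpannedBy C X i)
    (hj : SpannedBy C X j) : ∃ u ∈ CHi (X.prod X) (i + i), ∃ v ∈ CHi (X.prod X) (j + j),
      ∀ x ∈ W.gr X (2 * i), ∀ y : W.H X, pairH C x y (C.comp v u) = W.tr X (x * y) := by
  obtain ⟨ι, hι, hdec, a, b, ha, hb, hab, hspan⟩ := exists_dual C X hij hi hj
  have hact : ∀ s t, C.act (extProd C (a t) (a t)) (b s) = if s = t then a t else 0 := by
    intro s t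
    obtain ⟨q, hq, hp⟩ := tr_mul_rat C X hij (a t) (b s) (ha t) (hb s)
    rw [hab] at hq
    rw [act_extProd, C.mul_comm X (b s) (a t), hp, map_smul, LinearMap.smul_apply, C.one_mul]
    split_ifs at hq ⊢ with h1 h2 h2
    · have : q = 1 := by exact_mod_cast hq.symm
      rw [this, one_smul]
    · exact absurd h1.symm h2
    · exact absurd h2.symm h1
    · have : q = 0 := by exact_mod_cast hq.symm
      rw [this, zero_smul]
  refine ⟨∑ t, extProd C (a t) (a t), ?_, ∑ s, extProd C (b s) (b s), ?_, ?_⟩
  · exact (CHiL (X.prod X) (i + i)).sum_mem fun t _ => extProd_mem (C := C) (ha t) (ha t)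
  · exact (CHiL (X.prod X) (j + j)).sum_mem fun s _ => extProd_mem (C := C) (hb s) (hb s)
  · have h1 : ∀ s, C.comp (extProd C (b s) (b s)) (∑ t, extProd C (a t) (a t)) =
        extProd C (b s) (a s) := by
      intro s
      rw [comp_extProd, act_sum]
      have : ∑ t, C.act (extProd C (a t) (a t)) (b s) = a s := by
        rw [Finset.sum_eq_single s]
        · rw [hact, if_pos rfl]
        · intro t _ ht
          rw [hact, if_neg (Ne.symm ht)]
        · intro h
          exact absurd (Finset.mem_univ s) h
      rw [this]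
    have h2 : ∀ (T : Finset ι) (z : CH (X.prod X)), C.comp (∑ s ∈ T, extProd C (b s) (b s)) z =
        ∑ s ∈ T, C.comp (extProd C (b s) (b s)) z := fun T z =>
      map_sum (⟨⟨fun γ => C.comp γ z, C.zero_comp z⟩, fun γ γ' => C.add_comp γ γ' z⟩ :
        CH (X.prod X) →+ CH (X.prod X)) _ T
    rw [h2, Finset.sum_congr rfl fun s _ => h1 s]
    intro x hx y
    have h3 : pairH C x y (∑ s, extProd C (b s) (a s)) =
        ∑ s, W.tr X (x * C.cl X (b s)) * W.tr X (C.cl X (a s) * y) := by
      rw [map_sum]
      exact Finset.sum_congr rfl fun s _ => pairH_extProd C _ _ _ _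
    rw [h3]
    have h4 : ∑ s, W.tr X (x * C.cl X (b s)) * W.tr X (C.cl X (a s) * y) =
        ∑ s, trL W X (x * C.cl X (b s)) * trL W X (C.cl X (a s) * y) := rfl
    rw [h4]
    change _ = trL W X (x * y)
    refine Submodule.span_induction (p := fun x _ =>
      ∑ s, trL W X (x * C.cl X (b s)) * trL W X (C.cl X (a s) * y) = trL W X (x * y))
      ?_ ?_ ?_ ?_ (hspan x hx)
    · rintro _ ⟨t, rfl⟩
      rw [Finset.sum_eq_single t]
      · change W.tr X _ * _ = _
        rw [hab, if_pos rfl, _root_.one_mul]
      · intro s _ hs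
        change W.tr X _ * _ = _
        rw [hab, if_neg (Ne.symm hs), zero_mul]
      · intro h
        exact absurd (Finset.mem_univ t) h
    · simp
    · intro x x' _ _ h h'
      simp only [add_mul, map_add, Finset.sum_add_distrib]
      rw [h, h']
    · intro r x _ h
      simp only [smul_mul_assoc, map_smul, smul_eq_mul, _root_.mul_assoc, ← Finset.mul_sum]
      rw [h]

theorem hasLefschetz_of_algOff {X : SmProjVar k} (h : C.AlgebraicOffMiddle X) :
    Helper11.Murre.HasLefschetz C X := by
  intro j hj
  by_cases he : Even j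
  · obtain ⟨c, hc⟩ := he
    obtain ⟨u, hu, v, hv, huv⟩ := lef_even (C := C) (X := X) (i := X.dim - c) (j := c) (by omega)
      (spannedBy_of h _ (by omega)) (spannedBy_of h c (by omega))
    have e1 : X.dim - c + (X.dim - c) = 2 * X.dim - j := by omega
    have e2 : c + c = j := by omega
    have e3 : 2 * (X.dim - c) = 2 * X.dim - j := by omega
    rw [e1] at hu
    rw [e2] at hv
    rw [e3] at huv
    exact ⟨u, hu, v, hv, huv⟩
  · refine ⟨0, (CHiL (X.prod X) _).zero_mem, 0, (CHiL (X.prod X) _).zero_mem, fun x hx y => ?_⟩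
    have h1 : ¬ Even (2 * X.dim - j) := by
      rintro ⟨r, hr⟩
      exact he ⟨X.dim - r, by omega⟩
    rw [eq_zero_of_odd h (2 * X.dim - j) (by omega) h1 x hx, zero_mul, ChowTheory.pull_zero,
      zero_mul, zero_mul, ChowTheory.tr_zero, ChowTheory.tr_zero]

end Pool.Agent.Helper62.VG
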